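import Pool.Agent.Helper58.Bil.LinkDefs
import Pool.Agent.Helper28.Bil.Pro

/-!
# Piece BIL-PLATEAU (MP_190632_an, captain helper58)

For `x ≥ 3/20`, `t = ε`, `s = ε/x²` small, everything equals its value at `s = 0`.
-/

set_option autoImplicit false

namespace Pool.Agent.Helper58.Bil

open Real Set Filter Topology

namespace Plat

open Classical in
noncomputable def zz (P : ℝ → Prop) (a : ℝ) : ℝ := if h : ∃ D, P D then h.choose else a

theorem zer_eq_zz {G : Type} (F : ℝ × G → ℝ) (a b : ℝ) (p : G) :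
    zer F a b p = zz (fun D => D ∈ Icc a b ∧ F (D, p) = 0) a := rfl

theorem pl_zer_congr {G G' : Type} (Φ : ℝ × G → ℝ) (Ψ : ℝ × G' → ℝ) (a b : ℝ) (q : G) (q' : G')
    (h : ∀ D ∈ Icc a b, Φ (D, q) = Ψ (D, q')) : zer Φ a b q = zer Ψ a b q' := by
  rw [zer_eq_zz, zer_eq_zz]
  congr 1
  funext D
  apply propext
  constructor
  · rintro ⟨h1, h2⟩
    exact ⟨h1, by rw [← h D h1]; exact h2⟩
  · rintro ⟨h1, h2⟩
    exact ⟨h1, by rw [h D h1]; exact h2⟩

theorem pl_zer_mem {G : Type} (Φ : ℝ × G → ℝ) {a b : ℝ} (hab : a ≤ b) (q : G) :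
    zer Φ a b q ∈ Icc a b := by
  unfold zer
  split_ifs with h
  · exact h.choose_spec.1
  · exact left_mem_Icc.2 hab

/-- the integral of the scaled profile over an interval on which it equals one -/
theorem integral_PP {s x M a b : ℝ} (hP : ∀ Y, |Y| ≤ M → PP s x Y = 1) (ha : |a| ≤ M)
    (hb : |b| ≤ M) : (∫ y in a..b, PP s x y) = ∫ y in a..b, PP 0 0 y := by
  apply intervalIntegral.integral_congr
  intro y hy
  have h1 : |y| ≤ M := by
    rw [abs_le] at ha hb ⊢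
    rw [mem_uIcc] at hy
    rcases hy with h | h
    · exact ⟨by linarith, by linarith⟩
    · exact ⟨by linarith, by linarith⟩
  show PP s x y = PP 0 0 y
  rw [hP y h1, PP_zero]

end Plat

open Plat

theorem plateau {α : ℝ} (h1 : 0 < α) (h2 : α < π / 2) : ∃ ε₀ > 0, ∀ ε ∈ Ioo 0 ε₀,
    ∀ x ∈ Icc (3 / 20 : ℝ) (1 / 5), ∀ e η : ℝ,
    XX α (ε, ε / x ^ 2, x, e, η) = XX α (ε, 0, 0, e, η) ∧
    e4 α (ε, ε / x ^ 2, x, e, η) = e4 α (ε, 0, 0, e, η) ∧
    h4 α (ε, ε / x ^ 2, x, e, η) = h4 α (ε, 0, 0, e, η) ∧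
    D1 α (ε, ε / x ^ 2, x, e, η) = D1 α (ε, 0, 0, e, η) ∧
    D2 α (ε, ε / x ^ 2, x, e, η) = D2 α (ε, 0, 0, e, η) ∧
    D3 α (ε, ε / x ^ 2, x, e, η) = D3 α (ε, 0, 0, e, η) ∧
    D4 α (ε, ε / x ^ 2, x, e, η) = D4 α (ε, 0, 0, e, η) ∧
    K1 α (ε, ε / x ^ 2, x, e, η) = K1 α (ε, 0, 0, e, η) ∧
    K2 α (ε, ε / x ^ 2, x, e, η) = K2 α (ε, 0, 0, e, η) ∧
    e2 α (ε, ε / x ^ 2, x, e, η) = e2 α (ε, 0, 0, e, η) ∧
    PP (ε / x ^ 2) x (XX α (ε, ε / x ^ 2, x, e, η)) = 1 := by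
  have hα := h2
  clear h2
  obtain ⟨A, hA⟩ : ∃ A, A = 2 / tan α := ⟨_, rfl⟩
  obtain ⟨B, hB⟩ : ∃ B, B = 2 / tan (al2 α) := ⟨_, rfl⟩
  have hA0 : 0 < A := by
    rw [hA]
    exact div_pos two_pos (tan_pos_of_pos_of_lt_pi_div_two h1 hα)
  have hB0 : 0 < B := by
    rw [hB]
    exact div_pos two_pos (tan_pos_of_pos_of_lt_pi_div_two (by unfold al2; linarith)
      (by unfold al2; linarith))
  obtain ⟨M, hM⟩ : ∃ M, M = 2 * (A + B) := ⟨_, rfl⟩
  have hM0 : 0 < M := by rw [hM]; positivity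
  refine ⟨1 / (20 * M), by positivity, ?_⟩
  intro ε hε x hx e η
  have hx0 : 0 < x := by linarith [hx.1]
  have hP : ∀ Y, |Y| ≤ M → PP (ε / x ^ 2) x Y = 1 := by
    intro Y hY
    apply PP_plateau (by linarith [hx.1])
    have h3 : x ^ 2 * (ε / x ^ 2) * Y = ε * Y := by field_simp
    rw [h3]
    have h4 : ε * M ≤ 1 / 20 := by
      have h5 := (lt_div_iff₀ (by positivity)).1 hε.2
      linarith
    have h6 : |ε * Y| ≤ ε * M := by
      rw [abs_mul, abs_of_pos hε.1]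
      exact mul_le_mul_of_nonneg_left hY hε.1.le
    have h7 := (abs_le.1 h6).1
    linarith [hx.1]
  have hI : ∀ a b : ℝ, |a| ≤ M → |b| ≤ M →
      (∫ y in a..b, PP (ε / x ^ 2) x y) = ∫ y in a..b, PP 0 0 y := fun a b ha hb =>
    integral_PP hP ha hb
  have hPP : ∀ Y, |Y| ≤ M → PP (ε / x ^ 2) x Y = PP 0 0 Y := fun Y hY => by
    rw [hP Y hY, PP_zero]
  obtain ⟨q, hq⟩ : ∃ q : QQ, q = (ε, ε / x ^ 2, x, e, η) := ⟨_, rfl⟩
  obtain ⟨q', hq'⟩ : ∃ q' : QQ, q' = (ε, 0, 0, e, η) := ⟨_, rfl⟩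
  rw [← hq, ← hq']
  have q1 : q.1 = ε := by rw [hq]
  have q2 : q.2.1 = ε / x ^ 2 := by rw [hq]
  have q3 : q.2.2.1 = x := by rw [hq]
  have q4 : q.2.2.2.1 = e := by rw [hq]
  have q5 : q.2.2.2.2 = η := by rw [hq]
  have p1 : q'.1 = ε := by rw [hq']
  have p2 : q'.2.1 = 0 := by rw [hq']
  have p3 : q'.2.2.1 = 0 := by rw [hq']
  have p4 : q'.2.2.2.1 = e := by rw [hq']
  have p5 : q'.2.2.2.2 = η := by rw [hq']
  -- D1
  have mD1 : D1 α q ∈ Icc 0 A := by rw [hA]; exact pl_zer_mem _ (by rw [← hA]; exact hA0.le) _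
  have eD1 : D1 α q = D1 α q' := by
    unfold D1
    apply pl_zer_congr
    intro D hD
    rw [← hA] at hD
    simp only [F1, q1, q2, q3, q4, q5, p1, p2, p3, p4, p5]
    rw [hPP (-D) (by rw [abs_le]; constructor <;> linarith [hD.1, hD.2])]
  have eK1 : K1 α q = K1 α q' := by
    simp only [K1, q1, q4, q5, p1, p4, p5, eD1]
  have eE2 : ∀ z ∈ Icc (0 : ℝ) B, E2f α (z, q) = E2f α (z, q') := by
    intro z hz
    simp only [E2f, q1, q2, q3, q4, p1, p2, p3, p4]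
    rw [← eD1, hI (-D1 α q) (D1 α q + 2 * z)
      (by rw [abs_le]; constructor <;> linarith [mD1.1, mD1.2])
      (by rw [abs_le]; constructor <;> linarith [mD1.1, mD1.2, hz.1, hz.2])]
  have mD2 : D2 α q ∈ Icc 0 B := by rw [hB]; exact pl_zer_mem _ (by rw [← hB]; exact hB0.le) _
  have eD2 : D2 α q = D2 α q' := by
    unfold D2
    apply pl_zer_congr
    intro D hD
    rw [← hB] at hD
    simp only [F2, eE2 D hD, eK1]
    simp only [q1, q2, q3, p1, p2, p3]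
    rw [← eD1, hPP (D1 α q + 2 * D)
      (by rw [abs_le]; constructor <;> linarith [mD1.1, mD1.2, hD.1, hD.2])]
  have eN2 : N2 α q = N2 α q' := by simp only [N2, eD1, eD2]
  have mN2 : N2 α q ∈ Icc 0 (A + B) := by
    unfold N2
    constructor <;> linarith [mD1.1, mD1.2, mD2.1, mD2.2]
  have ee2 : e2 α q = e2 α q' := by
    unfold e2
    rw [eE2 _ mD2, eD2]
  have eh2 : h2 α q = h2 α q' := by
    simp only [h2, q1, q2, q3, p1, p2, p3, eK1]
    rw [← eD1, ← eD2, hPP (D1 α q + 2 * D2 α q)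
      (by rw [abs_le]; constructor <;> linarith [mD1.1, mD1.2, mD2.1, mD2.2])]
  have mD3 : D3 α q ∈ Icc (-B) 0 := by
    rw [hB]; exact pl_zer_mem _ (by rw [← hB]; linarith) _
  have eD3 : D3 α q = D3 α q' := by
    unfold D3
    apply pl_zer_congr
    intro D hD
    rw [← hB] at hD
    simp only [F3, q1, q2, q3, p1, p2, p3, ee2, eh2]
    rw [← eN2, hPP (N2 α q - D)
      (by rw [abs_le]; constructor <;> linarith [mN2.1, mN2.2, hD.1, hD.2])]
  have eK2 : K2 α q = K2 α q' := by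
    simp only [K2, q1, p1, eD3, ee2, eh2]
  have eE4 : ∀ z ∈ Icc (-A) (0 : ℝ), E4f α (z, q) = E4f α (z, q') := by
    intro z hz
    simp only [E4f, q1, q2, q3, p1, p2, p3, ee2]
    rw [← eD3, ← eN2, hI (N2 α q - D3 α q) (N2 α q + D3 α q + 2 * z)
      (by rw [abs_le]; constructor <;> linarith [mN2.1, mN2.2, mD3.1, mD3.2])
      (by rw [abs_le]; constructor <;> linarith [mN2.1, mN2.2, mD3.1, mD3.2, hz.1, hz.2])]
  have mD4 : D4 α q ∈ Icc (-A) 0 := by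
    rw [hA]; exact pl_zer_mem _ (by rw [← hA]; linarith) _
  have eD4 : D4 α q = D4 α q' := by
    unfold D4
    apply pl_zer_congr
    intro D hD
    rw [← hA] at hD
    simp only [F4, eE4 D hD, eK2]
    simp only [q1, q2, q3, p1, p2, p3]
    rw [← eD3, ← eN2, hPP (N2 α q + D3 α q + 2 * D)
      (by rw [abs_le]; constructor <;> linarith [mN2.1, mN2.2, mD3.1, mD3.2, hD.1, hD.2])]
  have eXX : XX α q = XX α q' := by simp only [XX, eN2, eD3, eD4]
  have ee4 : e4 α q = e4 α q' := by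
    unfold e4
    rw [eE4 _ mD4, eD4]
  have eh4 : h4 α q = h4 α q' := by
    simp only [h4, q1, q2, q3, p1, p2, p3, eK2]
    rw [← eD3, ← eN2, ← eD4, hPP (N2 α q + D3 α q + 2 * D4 α q)
      (by rw [abs_le]; constructor <;>
        linarith [mN2.1, mN2.2, mD3.1, mD3.2, mD4.1, mD4.2])]
  refine ⟨eXX, ee4, eh4, eD1, eD2, eD3, eD4, eK1, eK2, ee2, ?_⟩
  apply hP
  unfold XX
  rw [abs_le]
  constructor <;> linarith [mN2.1, mN2.2, mD3.1, mD3.2, mD4.1, mD4.2]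

end Pool.Agent.Helper58.Bil
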